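import Pool.Agent.H961C9.Loc

/-!
There is no local obstruction to the primality of `p_n + 2 P(n)`, for any integer-valued polynomial `P`.
-/

set_option autoImplicit false

open Filter Polynomial

namespace Pool.Agent.Results.MP_3aaefc_nt.NoLocalObstruction

/-- The `n`-th prime: `p 1 = 2`, `p 2 = 3`, `p 3 = 5`, and so on. -/
noncomputable def p (n : ℕ) : ℕ := Nat.nth Nat.Prime (n - 1)

/-- `P` takes integer values at the integers. -/
def IntegerValued (P : ℚ[X]) : Prop := ∀ m : ℤ, ∃ v : ℤ, P.eval (m : ℚ) = v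

/-- `m` has no prime factor `l` with `w < l ≤ z`. -/
def Free (w z : ℕ) (m : ℤ) : Prop := ∀ l : ℕ, l.Prime → w < l → l ≤ z → ¬ (l : ℤ) ∣ m

/-- For every `L` there is `B` such that for all large `N` there is a progression `a, a + d, …` of `L`
primes in `(N, 2 N]` with `1 ≤ d ≤ (log N) ^ B`, each of which is a prime `p n` whose index `n` has the
property `G n`. In particular `G n` holds for infinitely many `n`. -/
def Recurs (G : ℕ → Prop) : Prop := ∀ L : ℕ, ∃ B : ℕ, ∀ᶠ N : ℕ in atTop, ∃ a d : ℕ, 1 ≤ d ∧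
  (d : ℝ) ≤ Real.log N ^ B ∧ ∀ t < L, N < a + t * d ∧ a + t * d ≤ 2 * N ∧
    ∃ n : ℕ, 1 ≤ n ∧ p n = a + t * d ∧ G n

/-- **No local obstruction to the primality of `p n + 2 P(n)`.** Let `c` be any residue class modulo
`u ≥ 1` and let `z` be arbitrary.
(1) For EVERY integer-valued polynomial `P` the number `p n + 2 P(n)` has no prime factor up to `z`, for
infinitely many `n ≡ c (mod u)`, even along progressions of any length of primes `p n`.
(2) For every `r` the same holds for `r + 1` consecutive indices at once: no `p (n + i) + 2 P(n + i)`,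
`0 ≤ i ≤ r`, has a prime factor in `(r + 2, z]`.
(3) For a finite family of integer-valued polynomials `P i` and shifts `b i ≥ 0` the numbers
`p (n + b i) + 2 P i (n)` simultaneously have no prime factor up to `z`, if this is possible for each
prime separately: for every prime `l` there are integers `x` and `y ≡ c (mod u)` such that `l` divides
neither `x` nor any `x + 2 P i (y)`. -/
theorem result :
    (∀ P : ℚ[X], IntegerValued P → ∀ u c z : ℕ, 1 ≤ u →
      Recurs (fun n => n ≡ c [MOD u] ∧ ∃ v : ℤ, P.eval (n : ℚ) = v ∧ Free 0 z (p n + 2 * v))) ∧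
    (∀ P : ℚ[X], IntegerValued P → ∀ r u c z : ℕ, 1 ≤ u →
      Recurs (fun n => n ≡ c [MOD u] ∧ ∀ i ≤ r, ∃ v : ℤ, P.eval ((n + i : ℕ) : ℚ) = v ∧
        Free (r + 2) z (p (n + i) + 2 * v))) ∧
    (∀ (s : ℕ) (P : Fin s → ℚ[X]) (b : Fin s → ℕ), (∀ i, IntegerValued (P i)) →
      ∀ u c z : ℕ, 1 ≤ u →
      (∀ l : ℕ, l.Prime → ∃ x y : ℤ, (u : ℤ) ∣ y - c ∧ ¬ (l : ℤ) ∣ x ∧
        ∀ i, ∀ v : ℤ, (P i).eval (y : ℚ) = v → ¬ (l : ℤ) ∣ x + 2 * v) →
      Recurs (fun n => n ≡ c [MOD u] ∧ ∀ i, ∃ v : ℤ, (P i).eval (n : ℚ) = v ∧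
        Free 0 z (p (n + b i) + 2 * v))) := by
  have key : ∀ (s : ℕ) (P : Fin s → ℚ[X]) (b : Fin s → ℕ), (∀ i, IntegerValued (P i)) →
      ∀ u c w z : ℕ, 1 ≤ u →
      (∀ l : ℕ, l.Prime → w < l → ∃ x y : ℤ, (u : ℤ) ∣ y - c ∧ ¬ (l : ℤ) ∣ x ∧
        ∀ i, ∀ v : ℤ, (P i).eval (y : ℚ) = v → ¬ (l : ℤ) ∣ x + 2 * v) →
      Recurs (fun n => n ≡ c [MOD u] ∧ ∀ i, ∃ v : ℤ, (P i).eval (n : ℚ) = v ∧
        Free w z (p (n + b i) + 2 * v)) := by
    intro s P b hP u c w z hu hloc L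
    obtain ⟨B, hB⟩ := Pool.Agent.H961C9.family P hP b u c hu w z hloc L
    refine ⟨B, ?_⟩
    filter_upwards [hB] with N hN
    obtain ⟨a, d, h1, h2, h3⟩ := hN
    refine ⟨a, d, h1, h2, fun t ht => ?_⟩
    obtain ⟨h4, h5, n, h6, h7, h8, h9⟩ := h3 t ht
    exact ⟨h4, h5, n, h6, h8, h7, h9⟩
  have mono : ∀ G G' : ℕ → Prop, (∀ n, G n → G' n) → Recurs G → Recurs G' := by
    intro G G' h h0 L
    obtain ⟨B, hB⟩ := h0 L
    refine ⟨B, ?_⟩
    filter_upwards [hB] with N hN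
    obtain ⟨a, d, h1, h2, h3⟩ := hN
    refine ⟨a, d, h1, h2, fun t ht => ?_⟩
    obtain ⟨h4, h5, n, h6, h7, h8⟩ := h3 t ht
    exact ⟨h4, h5, n, h6, h7, h n h8⟩
  refine ⟨fun P hP u c z hu => ?_, fun P hP r u c z hu => ?_, fun s P b hP u c z hu hloc =>
    key s P b hP u c 0 z hu (fun l hl _ => hloc l hl)⟩
  · obtain ⟨v₀, hv₀⟩ := hP (c : ℤ)
    exact mono _ _ (fun n h => ⟨h.1, h.2 0⟩) (key 1 (fun _ => P) (fun _ => 0) (fun _ => hP) u c 0 z hu
      (fun l hl _ => by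
        obtain ⟨x, hx, h1⟩ := Pool.Agent.H961C9.loc_single P c l hl v₀ hv₀
        exact ⟨x, c, by simp, hx, fun _ v hv => h1 v hv⟩))
  · have hev : ∀ (i : Fin (r + 1)) (m : ℚ),
        (P.comp (X + C ((i : ℕ) : ℚ))).eval m = P.eval (m + ((i : ℕ) : ℚ)) := by
      intro i m
      simp
    have hP' : ∀ i : Fin (r + 1), IntegerValued (P.comp (X + C ((i : ℕ) : ℚ))) := by
      intro i m
      obtain ⟨v, hv⟩ := hP (m + ((i : ℕ) : ℤ))
      refine ⟨v, ?_⟩
      rw [hev]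
      push_cast at hv
      exact hv
    choose v hv using fun i : Fin (r + 1) => hP' i (c : ℤ)
    refine mono _ _ (fun n h => ⟨h.1, fun i hi => ?_⟩)
      (key (r + 1) (fun i => P.comp (X + C ((i : ℕ) : ℚ))) (fun i => (i : ℕ)) hP' u c (r + 2) z hu
      (fun l hl hlr => by
        obtain ⟨x, hx, hx2⟩ := Pool.Agent.H961C9.avoid r l hlr v
        refine ⟨x, c, by simp, hx, fun i v' hv' => ?_⟩
        have h1 : v' = v i := by
          rw [hv i] at hv'
          exact_mod_cast hv'.symm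
        rw [h1]
        exact hx2 i))
    obtain ⟨v', h1, h2⟩ := h.2 ⟨i, by omega⟩
    rw [hev] at h1
    refine ⟨v', ?_, h2⟩
    push_cast
    exact h1

end Pool.Agent.Results.MP_3aaefc_nt.NoLocalObstruction
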