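import Pool.Agent.H961PP.Fam

/-!
For a positive proportion of the `n` the number `p_n + 2 P(n)` has no small prime factor, for any
integer-valued polynomial `P`.
-/

set_option autoImplicit false

open Filter Polynomial

namespace Pool.Agent.Results.MP_3aaefc_nt.PositiveProportion

/-- The `n`-th prime: `p 1 = 2`, `p 2 = 3`, `p 3 = 5`, and so on. -/
noncomputable def p (n : ℕ) : ℕ := Nat.nth Nat.Prime (n - 1)

/-- `P` takes integer values at the integers. -/
def IntegerValued (P : ℚ[X]) : Prop := ∀ m : ℤ, ∃ v : ℤ, P.eval (m : ℚ) = v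

/-- `m` has no prime factor `l` with `w < l ≤ z`. -/
def Free (w z : ℕ) (m : ℤ) : Prop := ∀ l : ℕ, l.Prime → w < l → l ≤ z → ¬ (l : ℤ) ∣ m

/-- The `R` primes after `p n` are at distance at most `ε log (p n)`. -/
def Short (R : ℕ) (ε : ℝ) (n : ℕ) : Prop := (p (n + R) : ℝ) ≤ p n + ε * Real.log (p n)

open Classical in
/-- `G n` holds for a positive proportion of the `n`: at least `δ N` of the `n` in `[1, N]`, for some
`δ > 0` and all large `N`. -/
def Often (G : ℕ → Prop) : Prop :=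
  ∃ δ : ℝ, 0 < δ ∧ ∀ᶠ N : ℕ in atTop, δ * N ≤ (((Finset.Icc 1 N).filter G).card : ℝ)

/-- **No local obstruction, for a positive proportion of the indices.** Let `c` be any residue class
modulo `u ≥ 1`, let `z` and `R` be arbitrary and `ε > 0`. In (1), (2), (3) the indices `n ≡ c (mod u)`
with `p (n + R) ≤ p n + ε log (p n)` and with the following property have positive lower density.
(1) For an integer-valued polynomial `P`: `p n + 2 P(n)` has no prime factor up to `z`.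
(2) For an integer-valued polynomial `P` and `r ≥ 0`: no `p (n + i) + 2 P(n + i)`, `0 ≤ i ≤ r`, has a
prime factor in `(r + 2, z]`.
(3) For a finite family of integer-valued polynomials `P i` and shifts `b i ≥ 0`: no
`p (n + b i) + 2 P i (n)` has a prime factor up to `z`; here it is assumed that this is possible for each
prime separately: for every prime `l` there are integers `x` and `y ≡ c (mod u)` such that `l` divides
neither `x` nor any `x + 2 P i (y)`. -/
theorem result :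
    (∀ P : ℚ[X], IntegerValued P → ∀ (u c z R : ℕ) (ε : ℝ), 1 ≤ u → 0 < ε →
      Often (fun n => n ≡ c [MOD u] ∧ Short R ε n ∧
        ∃ v : ℤ, P.eval (n : ℚ) = v ∧ Free 0 z (p n + 2 * v))) ∧
    (∀ P : ℚ[X], IntegerValued P → ∀ (r u c z R : ℕ) (ε : ℝ), 1 ≤ u → 0 < ε →
      Often (fun n => n ≡ c [MOD u] ∧ Short R ε n ∧
        ∀ i ≤ r, ∃ v : ℤ, P.eval ((n + i : ℕ) : ℚ) = v ∧ Free (r + 2) z (p (n + i) + 2 * v))) ∧
    (∀ (s : ℕ) (P : Fin s → ℚ[X]) (b : Fin s → ℕ), (∀ i, IntegerValued (P i)) →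
      ∀ (u c z R : ℕ) (ε : ℝ), 1 ≤ u → 0 < ε →
      (∀ l : ℕ, l.Prime → ∃ x y : ℤ, (u : ℤ) ∣ y - c ∧ ¬ (l : ℤ) ∣ x ∧
        ∀ i, ∀ v : ℤ, (P i).eval (y : ℚ) = v → ¬ (l : ℤ) ∣ x + 2 * v) →
      Often (fun n => n ≡ c [MOD u] ∧ Short R ε n ∧
        ∀ i, ∃ v : ℤ, (P i).eval (n : ℚ) = v ∧ Free 0 z (p (n + b i) + 2 * v))) := by
  classical
  have key : ∀ (s : ℕ) (P : Fin s → ℚ[X]) (b : Fin s → ℕ), (∀ i, IntegerValued (P i)) →
      ∀ (u c w z R : ℕ) (ε : ℝ), 1 ≤ u → 0 < ε →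
      (∀ l : ℕ, l.Prime → w < l → ∃ x y : ℤ, (u : ℤ) ∣ y - c ∧ ¬ (l : ℤ) ∣ x ∧
        ∀ i, ∀ v : ℤ, (P i).eval (y : ℚ) = v → ¬ (l : ℤ) ∣ x + 2 * v) →
      Often (fun n => n ≡ c [MOD u] ∧ Short R ε n ∧
        ∀ i, ∃ v : ℤ, (P i).eval (n : ℚ) = v ∧ Free w z (p (n + b i) + 2 * v)) := by
    intro s P b hP u c w z R ε hu hε hloc
    obtain ⟨δ, hδ, N₀, hN₀⟩ := Pool.Agent.H961PP.familyPos P hP b u c hu w z hloc R ε hε
    refine ⟨δ, hδ, ?_⟩
    filter_upwards [eventually_ge_atTop N₀] with N hN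
    refine (hN₀ N hN).trans (le_of_eq ?_)
    congr 2
    ext n
    simp only [Finset.mem_filter]
    exact Iff.rfl
  have mono : ∀ G G' : ℕ → Prop, (∀ n, G n → G' n) → Often G → Often G' := by
    intro G G' h h0
    obtain ⟨δ, hδ, h1⟩ := h0
    refine ⟨δ, hδ, ?_⟩
    filter_upwards [h1] with N hN
    refine hN.trans ?_
    have h2 : ((Finset.Icc 1 N).filter G).card ≤ ((Finset.Icc 1 N).filter G').card := by
      apply Finset.card_le_card
      intro n hn
      rw [Finset.mem_filter] at hn ⊢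
      exact ⟨hn.1, h n hn.2⟩
    exact_mod_cast h2
  refine ⟨fun P hP u c z R ε hu hε => ?_, fun P hP r u c z R ε hu hε => ?_,
    fun s P b hP u c z R ε hu hε hloc =>
    key s P b hP u c 0 z R ε hu hε (fun l hl _ => hloc l hl)⟩
  · obtain ⟨v₀, hv₀⟩ := hP (c : ℤ)
    exact mono _ _ (fun n h => ⟨h.1, h.2.1, h.2.2 0⟩)
      (key 1 (fun _ => P) (fun _ => 0) (fun _ => hP) u c 0 z R ε hu hε
      (fun l hl _ => by
        obtain ⟨x, hx, h1⟩ := Pool.Agent.H961C9.loc_single P c l hl v₀ hv₀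
        exact ⟨x, c, by simp, hx, fun _ v hv => h1 v hv⟩))
  · have hev : ∀ (i : Fin (r + 1)) (m : ℚ),
        (P.comp (X + C ((i : ℕ) : ℚ))).eval m = P.eval (m + ((i : ℕ) : ℚ)) := by
      intro i m
      simp
    have hP' : ∀ i : Fin (r + 1), IntegerValued (P.comp (X + C ((i : ℕ) : ℚ))) := by
      intro i m
      obtain ⟨v, hv⟩ := hP (m + ((i : ℕ) : ℤ))
      refine ⟨v, ?_⟩
      rw [hev]
      push_cast at hv
      exact hv
    choose v hv using fun i : Fin (r + 1) => hP' i (c : ℤ)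
    refine mono _ _ (fun n h => ⟨h.1, h.2.1, fun i hi => ?_⟩)
      (key (r + 1) (fun i => P.comp (X + C ((i : ℕ) : ℚ))) (fun i => (i : ℕ)) hP' u c (r + 2) z R ε
      hu hε
      (fun l hl hlr => by
        obtain ⟨x, hx, hx2⟩ := Pool.Agent.H961C9.avoid r l hlr v
        refine ⟨x, c, by simp, hx, fun i v' hv' => ?_⟩
        have h1 : v' = v i := by
          rw [hv i] at hv'
          exact_mod_cast hv'.symm
        rw [h1]
        exact hx2 i))
    obtain ⟨v', h1, h2⟩ := h.2.2 ⟨i, by omega⟩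
    rw [hev] at h1
    refine ⟨v', ?_, h2⟩
    push_cast
    exact h1

end Pool.Agent.Results.MP_3aaefc_nt.PositiveProportion
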